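import Pool.Agent.H548P.Main

set_option autoImplicit false

/-!
# Approximating the black pebbling number within additive `n ^ (1 - ε)` is `PSPACE`-hard

The game (`Move`, `CanPebble`, `Peb`, `IsInstance`) is defined in `Pool/Agent/H548P/Game.lean`,
polynomial space in `Pool/Agent/H623R2/PS/Defs.lean`, polynomial time and the coding `bits` in
`Pool/Agent/NPC/Defs.lean`.
-/

namespace Pool.Agent.Results.MP_abd5c2_lc.AdditiveGap

open Pool.Agent.H548P Pool.Agent.NPC Pool.Agent.H623R2.PS

/-- Approximating the black pebbling number within additive `f n` is `PSPACE`-hard: every language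
`L` in `PSPACE` is reduced by a polynomial-time function `g` to the promise problem whose instances
are a graph `G` (directed, acyclic, indegree at most two, with a sink `t`) and a number `s`; for
`x ∈ L` the pebbling number is at most `s`, for `x ∉ L` it is at least `s + f n`, where `n` is the
number of nodes of `G`. -/
def GapHard (f : ℕ → ℝ) : Prop :=
  ∀ L : Set (List Bool), InPSPACE L → ∃ g : List Bool → List Bool, PolyTime g ∧
    ∀ x, ∃ (G : List (List ℕ)) (t s : ℕ), g x = bits (G, t, s) ∧ IsInstance G t ∧
      (x ∈ L → Peb G t ≤ s) ∧ (x ∉ L → (s : ℝ) + f G.length ≤ Peb G t)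

/-- For every `ε > 0`, approximating the black pebbling number of `n`-node directed acyclic graphs
with indegree at most two to within additive `n ^ (1 - ε)` is `PSPACE`-hard. -/
theorem result : ∀ ε : ℝ, 0 < ε → GapHard fun n => (n : ℝ) ^ (1 - ε) :=
  fun ε hε L hL => pebbling_hard ε hε L hL

end Pool.Agent.Results.MP_abd5c2_lc.AdditiveGap
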